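import Pool.Agent.Run7.h417.WK.Main

/-!
# The word problem in every variety of associative algebras which contains `W_K` is undecidable

`MP_f5ceca_al`, Q1, asks whether for every constructive field `K` of characteristic zero and every
variety `𝒱` of associative (not necessarily unital) `K`-algebras the word problem in `𝒱` is decidable
if and only if `𝒱` does not contain the variety `𝒲_K` defined by `x[y,z][t,u]v = 0`,
`x[y,z,t]u = 0`.  Here one of the two implications is proved completely: if `𝒱` contains `𝒲_K` then
some algebra which is finitely presented in `𝒱` has an undecidable word problem.

The generators and the relations do not depend on `𝒱` and on `K`: the relations have integral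
coefficients.  Nothing is assumed about the coding `ν : ℕ → K` of the elements of `K` except that
every element has a code (the fields are not even assumed to be constructive).  Moreover every
computably enumerable set of natural numbers is many-one reducible to the word problem of one such
algebra (in all `𝒱` and over all `K` at once).

Definitions (`Pool/Agent/Y817/WK/Defs.lean`, a file of the starting repository):
`evalPoly a f` is the value at `a` of the noncommutative polynomial without constant term `f` (a
list of terms: coefficient, first letter, the other letters); `InVar Id A`: `A` satisfies the
identities `Id`; `InW A`: `A` satisfies the two identities of `𝒲_K`; `ContainsW K Id`: every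
`K`-algebra which satisfies the two identities satisfies `Id`; `ZeroIn Id R w`: `w` is zero in the
algebra presented by the relations `R` in the variety defined by `Id`, that is, `w` vanishes at all
points of algebras of the variety at which the relations vanish; `DecidableWP ν Id R`: the word
problem of this algebra is decidable.

Proof.  The starting repository has the plan and a part of the files (`Pool/Agent/Y817/WK/`,
`Pool/Agent/Y246/WK/`: the theorem of Davis, Putnam, Robinson and Matiyasevich in the form of
quadratic systems, and the reduction to the parts); the derivation of the relation for a solution
of the system (`Run7/h417/WK/Derive.lean`), the polynomial solutions of the differential system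
(`Pde.lean`), the algebra of `4 × 4` block matrices (`Tri.lean`) and the assembly are new.
-/

set_option autoImplicit false

namespace Pool.Agent.Results.MP_f5ceca_al.UndecidableAboveW

open Pool.Agent.Y817.WK

/-- The set of the codes of the elements which are zero in the algebra presented by the relations
`R`, with integral coefficients, in the variety of `K`-algebras defined by `Id`. -/
def WordProblem {K : Type} [Field K] (ν : ℕ → K) (Id : Set (List (K × ℕ × List ℕ))) {k : ℕ}
    (R : List (List (ℤ × Fin k × List (Fin k)))) (w : List (ℕ × Fin k × List (Fin k))) : Prop :=
  ZeroIn Id (R.map fun r => r.map fun t => ((t.1 : K), t.2)) (w.map fun t => (ν t.1, t.2))

/-- **Undecidability above `𝒲_K`.**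

(1) There are generators and relations with integral coefficients such that for every field `K` of
characteristic zero, every coding `ν` of its elements and every variety of `K`-algebras which
contains `𝒲_K` the word problem of the algebra with this presentation in the variety is
undecidable.

(2) For every computably enumerable set `S` of natural numbers there are generators and relations
with integral coefficients such that for every field `K` of characteristic zero, every coding `ν`
of its elements and every variety of `K`-algebras which contains `𝒲_K` the set `S` is many-one
reducible to the word problem of the algebra with this presentation in the variety. -/
theorem result :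
    (∃ (k : ℕ) (R : List (List (ℤ × Fin k × List (Fin k)))),
      ∀ (K : Type) [Field K] [CharZero K] (ν : ℕ → K), Function.Surjective ν →
        ∀ Id : Set (List (K × ℕ × List ℕ)), ContainsW K Id →
          ¬ DecidableWP ν Id (R.map fun r => r.map fun t => ((t.1 : K), t.2))) ∧
    (∀ S : ℕ → Prop, REPred S →
      ∃ (k : ℕ) (R : List (List (ℤ × Fin k × List (Fin k)))),
        ∀ (K : Type) [Field K] [CharZero K] (ν : ℕ → K), Function.Surjective ν →
          ∀ Id : Set (List (K × ℕ × List ℕ)), ContainsW K Id →
            ManyOneReducible S (WordProblem ν Id R)) :=
  ⟨Run7.h417.WK.main_thm, Run7.h417.WK.reduction⟩

end Pool.Agent.Results.MP_f5ceca_al.UndecidableAboveW
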